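import Pool.Agent.H250.MR.Stm2

/-!
# R1: the sum of the `w_k` versus the sum of the `conj x_k` (helper249, for helper250)
-/

set_option autoImplicit false

open Pool.Agent.H250.MR

namespace Pool.Agent.H249.MR

/-- `1 + a x = w x` -/
theorem one_add {a : ℝ} {w x : ℂ} (hw : w ≠ (a : ℂ)) (hx : x = (w - (a : ℂ))⁻¹) :
    1 + (a : ℂ) * x = w * x := by
  have h0 : w - (a : ℂ) ≠ 0 := sub_ne_zero.2 hw
  have h1 : (w - (a : ℂ)) * x = 1 := by rw [hx]; exact mul_inv_cancel₀ h0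
  linear_combination -h1

theorem norm_le' {a : ℝ} {w x : ℂ} (hw1 : ‖w‖ ≤ 1) (hw : w ≠ (a : ℂ)) (hx : x = (w - (a : ℂ))⁻¹) :
    ‖1 + (a : ℂ) * x‖ ≤ ‖x‖ := by
  rw [one_add hw hx, norm_mul]
  exact mul_le_of_le_one_left (norm_nonneg _) hw1

/-- `w - conj x = conj x (|w|² - 1 - a w)` -/
theorem diff_le {a : ℝ} {w x : ℂ} (ha : 0 < a) (hw1 : ‖w‖ ≤ 1) (hw : w ≠ (a : ℂ))
    (hx : x = (w - (a : ℂ))⁻¹) :
    ‖w - (starRingEnd ℂ) x‖ ≤ ‖x‖ * (1 - ‖w‖ ^ 2) + a * ‖x‖ := by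
  have h0 : w - (a : ℂ) ≠ 0 := sub_ne_zero.2 hw
  have h1 : (w - (a : ℂ)) * x = 1 := by rw [hx]; exact mul_inv_cancel₀ h0
  have h2 : ((starRingEnd ℂ) w - (a : ℂ)) * (starRingEnd ℂ) x = 1 := by
    have h3 := congrArg (starRingEnd ℂ) h1
    rw [map_mul, map_sub, map_one, Complex.conj_ofReal] at h3
    exact h3
  have h4 : w * (starRingEnd ℂ) w = ((‖w‖ ^ 2 : ℝ) : ℂ) := by
    rw [Complex.mul_conj, Complex.normSq_eq_norm_sq]
  have h5 : w - (starRingEnd ℂ) x =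
      (starRingEnd ℂ) x * (((‖w‖ ^ 2 - 1 : ℝ) : ℂ) - (a : ℂ) * w) := by
    have h6 : ((‖w‖ ^ 2 - 1 : ℝ) : ℂ) = w * (starRingEnd ℂ) w - 1 := by
      rw [h4]; push_cast; ring
    rw [h6]
    linear_combination (-w) * h2
  rw [h5, norm_mul, RCLike.norm_conj]
  have h7 : ‖((‖w‖ ^ 2 - 1 : ℝ) : ℂ) - (a : ℂ) * w‖ ≤ (1 - ‖w‖ ^ 2) + a := by
    refine (norm_sub_le _ _).trans ?_
    rw [Complex.norm_real, norm_mul, Complex.norm_real, Real.norm_eq_abs, Real.norm_eq_abs,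
      abs_of_pos ha]
    have h8 : ‖w‖ ^ 2 ≤ 1 := by nlinarith [norm_nonneg w]
    rw [abs_of_nonpos (by linarith)]
    nlinarith [norm_nonneg w]
  have h9 := mul_le_mul_of_nonneg_left h7 (norm_nonneg x)
  linarith

/-- `r (1 - |w|²) ≤ |s| + 3 h` -/
theorem far_le {a : ℝ} {w x : ℂ} (ha : 0 < a) (ha1 : a ≤ 1 / 200) (hw1 : ‖w‖ ≤ 1)
    (hw : w ≠ (a : ℂ)) (hx : x = (w - (a : ℂ))⁻¹) :
    ‖x‖ * (1 - ‖w‖ ^ 2) ≤ |‖x‖ - 1| + 3 * (‖x‖ - 1 - a * x.re) := by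
  have hn := norm_le' hw1 hw hx
  have h1 := p1 ha.le hn
  have h2 := p2 hn
  have hr0 : 0 ≤ ‖x‖ := norm_nonneg x
  have hr : 2 / 3 ≤ ‖x‖ := by nlinarith
  have h3 := sq_one_add a x
  have h4 : ‖1 + (a : ℂ) * x‖ = ‖w‖ * ‖x‖ := by rw [one_add hw hx, norm_mul]
  rw [h4] at h3
  have h5 : |‖x‖ - 1| ≤ ‖x‖ := by
    rw [abs_le]
    constructor
    · nlinarith
    · linarith
  have h6 : (‖x‖ - 1) ^ 2 ≤ ‖x‖ * |‖x‖ - 1| := by
    rw [← sq_abs, sq]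
    exact mul_le_mul_of_nonneg_right h5 (abs_nonneg _)
  have h7 : ‖x‖ * (‖x‖ * (1 - ‖w‖ ^ 2)) ≤ ‖x‖ * (|‖x‖ - 1| + 3 * (‖x‖ - 1 - a * x.re)) := by
    have e1 : ‖x‖ * (‖x‖ * (1 - ‖w‖ ^ 2)) =
        (‖x‖ - 1) ^ 2 + 2 * (‖x‖ - 1 - a * x.re) - a ^ 2 * ‖x‖ ^ 2 := by
      linear_combination -h3
    have e2 : 2 * (‖x‖ - 1 - a * x.re) ≤ ‖x‖ * (3 * (‖x‖ - 1 - a * x.re)) := by nlinarith
    have e3 : 0 ≤ a ^ 2 * ‖x‖ ^ 2 := by positivity
    rw [e1, mul_add]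
    linarith
  exact le_of_mul_le_mul_left h7 (by linarith)

/-- **(R1)** -/
theorem R1 : S_R1 := by
  intro N a w x ha ha1 hw1 hw hx hS
  have hn : ∀ k, ‖1 + (a : ℂ) * x k‖ ≤ ‖x k‖ := fun k => norm_le' (hw1 k) (hw k) (hx k)
  have ha1' : a < 1 := by linarith
  obtain ⟨hA, hHA, hSA⟩ := F3 ha ha1' hn hS
  -- the sum of the absolute values of `s`
  have hs : ∑ k, |‖x k‖ - 1| ≤ 2 * a * N := by
    have e1 : ∀ k, |‖x k‖ - 1| ≤ (‖x k‖ - 1) + 2 * a := by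
      intro k
      have h1 := p1 ha.le (hn k)
      rcases le_total 1 ‖x k‖ with h | h
      · rw [abs_of_nonneg (by linarith)]
        linarith
      · rw [abs_of_nonpos (by linarith)]
        nlinarith [norm_nonneg (x k)]
    refine (Finset.sum_le_sum fun k _ => e1 k).trans ?_
    rw [Finset.sum_add_distrib, Finset.sum_sub_distrib, Finset.sum_const, Finset.sum_const,
      Finset.card_univ, Fintype.card_fin, nsmul_eq_mul, nsmul_eq_mul]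
    linarith
  have hfar : ∑ k ∈ Far a x, |‖x k‖ - 1| ≤ 2 * a * N :=
    (Finset.sum_le_sum_of_subset_of_nonneg (Finset.subset_univ _) fun _ _ _ => abs_nonneg _).trans hs
  have hmain : ‖∑ k, (w k - (starRingEnd ℂ) (x k))‖ ≤
      (2 * a * N + 3 * HH a x) + SS a x + a * N := by
    refine (norm_sum_le _ _).trans ?_
    refine (Finset.sum_le_sum fun k _ => diff_le ha (hw1 k) (hw k) (hx k)).trans ?_
    rw [Finset.sum_add_distrib, ← Finset.mul_sum]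
    refine add_le_add ?_ (mul_le_mul_of_nonneg_left hS ha.le)
    rw [← Finset.sum_add_sum_compl (Far a x)]
    refine add_le_add ?_ ?_
    · refine (Finset.sum_le_sum fun k _ => far_le ha ha1 (hw1 k) (hw k) (hx k)).trans ?_
      rw [Finset.sum_add_distrib, ← Finset.mul_sum]
      exact add_le_add hfar le_rfl
    · unfold SS
      refine Finset.sum_le_sum fun k _ => ?_
      exact mul_le_of_le_one_right (norm_nonneg _) (by nlinarith [sq_nonneg ‖w k‖])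
  rw [← mul_sub, ← Finset.sum_sub_distrib, norm_mul, Complex.norm_real, Real.norm_eq_abs,
    abs_of_pos ha]
  refine (mul_le_mul_of_nonneg_left hmain ha.le).trans ?_
  have hN : (0 : ℝ) ≤ N := Nat.cast_nonneg N
  have h1 : a * HH a x ≤ 1 / 200 * AA a x :=
    mul_le_mul ha1 hHA (HH_nonneg hn) (by norm_num)
  have h2 : a * SS a x ≤ 1 / 200 * (2 * AA a x) :=
    mul_le_mul ha1 hSA SS_nonneg (by norm_num)
  have h3 : 0 ≤ a ^ 2 * (N : ℝ) := by positivity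
  calc a * (2 * a * N + 3 * HH a x + SS a x + a * N) =
      3 * (a ^ 2 * N) + 3 * (a * HH a x) + a * SS a x := by ring
    _ ≤ 13 * (a ^ 2 * N) + AA a x := by linarith

end Pool.Agent.H249.MR
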